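import Pool.Agent.H459.AV.Stm2

/-!
# AV2-ISO: descent by a 2-isogeny
-/

set_option autoImplicit false
set_option linter.all false

open Polynomial WeierstrassCurve
open scoped Classical

namespace Pool.Agent.H307.AV2

open Pool.Agent.H459.AV

/-- The data of the curve. -/
structure Dat (K : Type) [Field K] [CharZero K] (a b r : K) (W : WeierstrassCurve.Affine K) : Prop where
  h1 : W.a₁ = 0
  h2 : W.a₂ = 0
  h3 : W.a₃ = 0
  h4 : W.a₄ = a
  h6 : W.a₆ = b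
  hr : r ^ 3 + a * r + b = 0
  hB : 3 * r ^ 2 + a ≠ 0
  hD : -(3 * r ^ 2 + 4 * a) ≠ 0

section

variable {K : Type} [Field K] [CharZero K] {a b r : K} {W : WeierstrassCurve.Affine K}

theorem Dat.eqn (hd : Dat K a b r W) (x y : K) :
    W.Equation x y ↔ y ^ 2 = (x - r) * ((x - r) ^ 2 + 3 * r * (x - r) + (3 * r ^ 2 + a)) := by
  have hb : b = -(r ^ 3 + a * r) := by linear_combination hd.hr
  rw [Affine.equation_iff, hd.h1, hd.h2, hd.h3, hd.h4, hd.h6, hb]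
  constructor
  · intro h; linear_combination h
  · intro h; linear_combination h

theorem Dat.nons (hd : Dat K a b r W) (x y : K) (h : W.Equation x y) : W.Nonsingular x y := by
  have hb : b = -(r ^ 3 + a * r) := by linear_combination hd.hr
  refine (Affine.equation_iff_nonsingular_of_Δ_ne_zero (W := W) ?_).1 h
  have e : W.Δ = 16 * (3 * r ^ 2 + a) ^ 2 * (-(3 * r ^ 2 + 4 * a)) := by
    simp only [WeierstrassCurve.Δ, WeierstrassCurve.b₂, WeierstrassCurve.b₄, WeierstrassCurve.b₆,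
      WeierstrassCurve.b₈, hd.h1, hd.h2, hd.h3, hd.h4, hd.h6, hb]
    ring
  rw [e]
  exact mul_ne_zero (mul_ne_zero (by norm_num) (pow_ne_zero _ hd.hB)) hd.hD

theorem Dat.ng (hd : Dat K a b r W) (x y : K) : W.negY x y = -y := by
  simp [Affine.negY, hd.h1, hd.h3]

theorem Dat.neg (hd : Dat K a b r W) (x y : K) (h : W.Nonsingular x y) (h' : W.Nonsingular x (-y)) :
    (-(Affine.Point.some x y h) : W.Point) = Affine.Point.some x (-y) h' := by
  rw [Affine.Point.neg_some]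
  congr 1
  exact hd.ng x y

theorem line (hd : Dat K a b r W) {x₁ y₁ x₂ y₂ : K} (h₁ : W.Nonsingular x₁ y₁) (h₂ : W.Nonsingular x₂ y₂)
    (hne : ¬(x₁ = x₂ ∧ y₁ = -y₂)) :
    ∃ l n x₃ y₃ : K, ∃ h₃ : W.Nonsingular x₃ y₃,
      (Affine.Point.some x₁ y₁ h₁ : W.Point) + Affine.Point.some x₂ y₂ h₂ = -(Affine.Point.some x₃ y₃ h₃) ∧
      y₁ = l * (x₁ - r) + n ∧ y₂ = l * (x₂ - r) + n ∧ y₃ = l * (x₃ - r) + n ∧
      (x₁ - r) + (x₂ - r) + (x₃ - r) = l ^ 2 - 3 * r ∧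
      (x₁ - r) * (x₂ - r) + (x₁ - r) * (x₃ - r) + (x₂ - r) * (x₃ - r) = (3 * r ^ 2 + a) - 2 * l * n ∧
      (x₁ - r) * (x₂ - r) * (x₃ - r) = n ^ 2 := by
  have hne' : ¬(x₁ = x₂ ∧ y₁ = W.negY x₂ y₂) := by rw [hd.ng]; exact hne
  have hb : b = -(r ^ 3 + a * r) := by linear_combination hd.hr
  obtain ⟨l, hl⟩ : ∃ l, l = W.slope x₁ x₂ y₁ y₂ := ⟨_, rfl⟩
  have hX : W.addX x₁ x₂ l = l ^ 2 - x₁ - x₂ := by
    simp [Affine.addX, hd.h1, hd.h2]
  have hY : W.negAddY x₁ x₂ y₁ l = l * (W.addX x₁ x₂ l - x₁) + y₁ := rfl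
  have hy2 : y₂ = l * (x₂ - x₁) + y₁ := by
    by_cases hx : x₁ = x₂
    · have := Affine.Y_eq_of_Y_ne h₁.1 h₂.1 hx (fun h => hne' ⟨hx, h⟩)
      rw [← this, hx]; ring
    · rw [hl, Affine.slope_of_X_ne hx]
      have : x₁ - x₂ ≠ 0 := sub_ne_zero.2 hx
      field_simp
      ring
  have key : ∀ t : K, (l * (t - x₁) + y₁) ^ 2 - t ^ 3 - a * t - b =
      -((t - x₁) * (t - x₂) * (t - W.addX x₁ x₂ l)) := by
    intro t
    have h := Affine.addPolynomial_slope h₁.1 h₂.1 hne'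
    rw [← hl, Affine.addPolynomial_eq] at h
    have h' := congrArg (Polynomial.eval t) h
    simp only [Cubic.toPoly, Polynomial.eval_neg, Polynomial.eval_add, Polynomial.eval_mul, Polynomial.eval_C,
      Polynomial.eval_pow, Polynomial.eval_X, Polynomial.eval_sub, hd.h1, hd.h2, hd.h3, hd.h4, hd.h6] at h'
    linear_combination h'
  refine ⟨l, y₁ - l * (x₁ - r), W.addX x₁ x₂ l, W.negAddY x₁ x₂ y₁ l, ?_, ?_, ?_, ?_, ?_, ?_, ?_, ?_⟩
  · rw [hl]; exact Affine.nonsingular_negAdd h₁ h₂ hne'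
  · subst hl
    rw [Affine.Point.add_some hne']
    rfl
  · ring
  · rw [hy2]; ring
  · rw [hY]; ring
  · rw [hX]; ring
  · have k1 := key r
    have k2 := key (r + 1)
    have k3 := hX
    rw [hb] at k1 k2
    linear_combination k2 - k1 + k3
  · have k1 := key r
    rw [hb] at k1
    linear_combination -k1

/-- A point given by `t`, `w`. -/
def Gam (W : WeierstrassCurve.Affine K) (a r : K) (D : W.Point) (t w : K) : Prop :=
  (∃ h : W.Nonsingular (t ^ 2 + r) (t * w), D = Affine.Point.some (t ^ 2 + r) (t * w) h) ∧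
    w ^ 2 = t ^ 4 + 3 * r * t ^ 2 + (3 * r ^ 2 + a)

/-- The points in the image of the dual isogeny. -/
def Kap (W : WeierstrassCurve.Affine K) (a r : K) (D : W.Point) : Prop :=
  D = 0 ∨ ∃ t w, Gam W a r D t w

theorem Gam.of (hd : Dat K a b r W) {x y : K} (h : W.Nonsingular x y) (t w : K) (hx : t ^ 2 = x - r)
    (hy : t * w = y) (hw : w ^ 2 = (x - r) ^ 2 + 3 * r * (x - r) + (3 * r ^ 2 + a)) :
    Gam W a r (Affine.Point.some x y h) t w := by
  have hx' : x = t ^ 2 + r := by rw [hx]; ring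
  subst hx'
  subst hy
  refine ⟨⟨h, rfl⟩, ?_⟩
  rw [hw]; ring

theorem Gam.neg (hd : Dat K a b r W) {D : W.Point} {t w : K} (h : Gam W a r D t w) :
    Gam W a r (-D) (-t) w := by
  obtain ⟨⟨h1, rfl⟩, h2⟩ := h
  have h3 : W.Nonsingular (t ^ 2 + r) (-(t * w)) := by
    have := (Affine.nonsingular_neg (W' := W) (t ^ 2 + r) (t * w)).2 h1
    rwa [hd.ng] at this
  rw [hd.neg _ _ h1 h3]
  exact Gam.of hd h3 (-t) w (by ring) (by ring) (by rw [h2]; ring)

theorem Kap.neg (hd : Dat K a b r W) {D : W.Point} (h : Kap W a r D) : Kap W a r (-D) := by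
  rcases h with h | ⟨t, w, h⟩
  · left; rw [h, neg_zero]
  · right; exact ⟨-t, w, h.neg hd⟩

/-- The map `α`. -/
noncomputable def alpha (W : WeierstrassCurve.Affine K) (a r : K) : W.Point → K
  | .zero => 1
  | .some x _ _ => if x = r then 3 * r ^ 2 + a else x - r

theorem alpha_zero : alpha W a r 0 = 1 := rfl

theorem alpha_T (x y : K) (h : W.Nonsingular x y) (hx : x = r) :
    alpha W a r (Affine.Point.some x y h) = 3 * r ^ 2 + a := by
  simp [alpha, hx]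

theorem alpha_some (x y : K) (h : W.Nonsingular x y) (hx : x ≠ r) :
    alpha W a r (Affine.Point.some x y h) = x - r := by
  simp [alpha, hx]

theorem alpha_ne (hd : Dat K a b r W) (P : W.Point) : alpha W a r P ≠ 0 := by
  rcases P with _ | ⟨x, y, h⟩
  · show (1 : K) ≠ 0
    exact one_ne_zero
  · by_cases hx : x = r
    · rw [alpha_T x y h hx]; exact hd.hB
    · rw [alpha_some x y h hx]; exact sub_ne_zero.2 hx

theorem alpha_neg (hd : Dat K a b r W) (P : W.Point) : alpha W a r (-P) = alpha W a r P := by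
  rcases P with _ | ⟨x, y, h⟩
  · rfl
  · rfl

theorem kap_of_sq (hd : Dat K a b r W) (P : W.Point) (z : K) (hz : alpha W a r P = z ^ 2) : Kap W a r P := by
  rcases P with _ | ⟨x, y, h⟩
  · left; rfl
  · right
    have he := (hd.eqn x y).1 h.1
    by_cases hx : x = r
    · rw [alpha_T x y h hx] at hz
      subst hx
      have hy : y = 0 := by
        have : y ^ 2 = 0 := by rw [he]; ring
        exact pow_eq_zero_iff (two_ne_zero) |>.1 this
      exact ⟨0, z, Gam.of hd h 0 z (by ring) (by rw [hy]; ring) (by rw [← hz]; ring)⟩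
    · rw [alpha_some x y h hx] at hz
      have hz0 : z ≠ 0 := by
        intro h0
        rw [h0] at hz
        exact hx (by linear_combination hz)
      refine ⟨z, y / z, Gam.of hd h _ _ hz.symm (by field_simp) ?_⟩
      rw [div_pow, he, hz]
      field_simp

theorem alpha_sum (hd : Dat K a b r W) (P Q : W.Point) (z : K) (hz : alpha W a r P * alpha W a r Q = z ^ 2) :
    Kap W a r (-(P + Q)) := by
  rcases P with _ | ⟨x₁, y₁, h₁⟩
  · have : (Affine.Point.zero : W.Point) = 0 := rfl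
    rw [this] at hz ⊢
    rw [zero_add]
    refine Kap.neg hd (kap_of_sq hd Q z ?_)
    rw [← hz, alpha_zero, one_mul]
  rcases Q with _ | ⟨x₂, y₂, h₂⟩
  · have : (Affine.Point.zero : W.Point) = 0 := rfl
    rw [this] at hz ⊢
    rw [add_zero]
    refine Kap.neg hd (kap_of_sq hd _ z ?_)
    rw [← hz, alpha_zero, mul_one]
  have e1 := (hd.eqn x₁ y₁).1 h₁.1
  have e2 := (hd.eqn x₂ y₂).1 h₂.1
  by_cases hne : x₁ = x₂ ∧ y₁ = -y₂
  · left
    rw [Affine.Point.add_of_Y_eq hne.1 (by rw [hd.ng]; exact hne.2), neg_zero]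
  · right
    obtain ⟨l, n, x₃, y₃, h₃, hs, q1, q2, q3, v1, v2, v3⟩ := line hd h₁ h₂ hne
    rw [hs, neg_neg]
    by_cases hx1 : x₁ = r
    · have hy1 : y₁ = 0 := by
        have : y₁ ^ 2 = 0 := by rw [e1, hx1]; ring
        exact pow_eq_zero_iff (two_ne_zero) |>.1 this
      have hn : n = 0 := by rw [hy1, hx1] at q1; linear_combination -q1
      by_cases hx2 : x₂ = r
      · exfalso
        have hy2 : y₂ = 0 := by
          have : y₂ ^ 2 = 0 := by rw [e2, hx2]; ring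
          exact pow_eq_zero_iff (two_ne_zero) |>.1 this
        exact hne ⟨by rw [hx1, hx2], by rw [hy1, hy2, neg_zero]⟩
      · rw [alpha_T _ _ h₁ hx1, alpha_some _ _ h₂ hx2] at hz
        have hX2 : x₂ - r ≠ 0 := sub_ne_zero.2 hx2
        have v2' : (x₂ - r) * (x₃ - r) = 3 * r ^ 2 + a := by
          rw [hn, hx1] at v2; linear_combination v2
        have ht : (z / (x₂ - r)) ^ 2 = x₃ - r := by
          rw [div_pow, ← hz, ← v2']; field_simp
        refine ⟨z / (x₂ - r), l * (z / (x₂ - r)), Gam.of hd h₃ _ _ ht ?_ ?_⟩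
        · rw [q3, ← ht, hn]; ring
        · rw [mul_pow, ht]
          rw [hx1, hn] at v2
          rw [hx1] at v1
          linear_combination (-(x₃ - r)) * v1 + v2
    · by_cases hx2 : x₂ = r
      · have hy2 : y₂ = 0 := by
          have : y₂ ^ 2 = 0 := by rw [e2, hx2]; ring
          exact pow_eq_zero_iff (two_ne_zero) |>.1 this
        have hn : n = 0 := by rw [hy2, hx2] at q2; linear_combination -q2
        rw [alpha_T _ _ h₂ hx2, alpha_some _ _ h₁ hx1] at hz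
        have hX1 : x₁ - r ≠ 0 := sub_ne_zero.2 hx1
        have v2' : (x₁ - r) * (x₃ - r) = 3 * r ^ 2 + a := by
          rw [hn, hx2] at v2; linear_combination v2
        have ht : (z / (x₁ - r)) ^ 2 = x₃ - r := by
          rw [div_pow, ← hz, ← v2']; field_simp
        refine ⟨z / (x₁ - r), l * (z / (x₁ - r)), Gam.of hd h₃ _ _ ht ?_ ?_⟩
        · rw [q3, ← ht, hn]; ring
        · rw [mul_pow, ht]
          rw [hx2, hn] at v2
          rw [hx2] at v1
          linear_combination (-(x₃ - r)) * v1 + v2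
      · rw [alpha_some _ _ h₁ hx1, alpha_some _ _ h₂ hx2] at hz
        have hX1 : x₁ - r ≠ 0 := sub_ne_zero.2 hx1
        have hX2 : x₂ - r ≠ 0 := sub_ne_zero.2 hx2
        have hz0 : z ≠ 0 := by
          intro h0
          rw [h0] at hz
          exact mul_ne_zero hX1 hX2 (by rw [hz]; ring)
        have ht : (n / z) ^ 2 = x₃ - r := by
          rw [div_pow, ← hz, ← v3]; field_simp
        have hnz : n / z * z = n := by field_simp
        refine ⟨n / z, l * (n / z) + z, Gam.of hd h₃ _ _ ht ?_ ?_⟩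
        · rw [q3, ← ht]
          linear_combination hnz
        · have : (l * (n / z) + z) ^ 2 = l ^ 2 * (n / z) ^ 2 + 2 * l * (n / z * z) + z ^ 2 := by ring
          rw [this, ht, hnz, ← hz]
          linear_combination (-(x₃ - r)) * v1 + v2

/-- The product formula for the value of the second descent map. -/
theorem gv_mul (t w : K) (hw : w ^ 2 = t ^ 4 + 3 * r * t ^ 2 + (3 * r ^ 2 + a)) :
    (2 * t ^ 2 + 3 * r + 2 * w) * (2 * t ^ 2 + 3 * r - 2 * w) = -(3 * r ^ 2 + 4 * a) := by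
  linear_combination -4 * hw

theorem gv_ne (hd : Dat K a b r W) (t w : K) (hw : w ^ 2 = t ^ 4 + 3 * r * t ^ 2 + (3 * r ^ 2 + a)) :
    2 * t ^ 2 + 3 * r + 2 * w ≠ 0 := by
  intro h
  have := gv_mul (a := a) (r := r) t w hw
  rw [h, zero_mul] at this
  exact hd.hD this.symm

theorem gv_point (hd : Dat K a b r W) (W' : WeierstrassCurve.Affine K)
    (g1 : W'.a₁ = 0) (g2 : W'.a₂ = -6 * r) (g3 : W'.a₃ = 0) (g4 : W'.a₄ = -(3 * r ^ 2 + 4 * a))
    (g6 : W'.a₆ = 0) (t w : K) (hw : w ^ 2 = t ^ 4 + 3 * r * t ^ 2 + (3 * r ^ 2 + a)) :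
    W'.Nonsingular (2 * t ^ 2 + 3 * r + 2 * w) (2 * t * (2 * t ^ 2 + 3 * r + 2 * w)) := by
  have hm := gv_mul (a := a) (r := r) t w hw
  have hg := gv_ne hd t w hw
  rw [Affine.nonsingular_iff, Affine.equation_iff, g1, g2, g3, g4, g6, ← hm]
  constructor
  · ring
  · by_cases ht : t = 0
    · left
      subst ht
      have hw0 : w ≠ 0 := by
        intro h0
        rw [h0] at hw
        exact hd.hB (by linear_combination -hw)
      intro h
      have h1 : 4 * (2 * 0 ^ 2 + 3 * r + 2 * w) * w = 0 := by linear_combination -h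
      exact mul_ne_zero (mul_ne_zero (by norm_num) hg) hw0 h1
    · right
      intro h
      have h1 : 4 * t * (2 * t ^ 2 + 3 * r + 2 * w) = 0 := by linear_combination h
      exact mul_ne_zero (mul_ne_zero (by norm_num) ht) hg h1

/-- Additivity of the second descent map. -/
theorem gam_add_aux (hd : Dat K a b r W) {D₁ D₂ : W.Point} {t₁ w₁ t₂ w₂ : K} (h₁ : Gam W a r D₁ t₁ w₁)
    (h₂ : Gam W a r D₂ t₂ w₂) (ht₂ : t₂ ≠ 0) (s : K)
    (hs : (2 * t₁ ^ 2 + 3 * r + 2 * w₁) * (2 * t₂ ^ 2 + 3 * r + 2 * w₂) = s ^ 2) :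
    D₁ + D₂ = 0 ∨ ∃ t₃ w₃ u, Gam W a r (-(D₁ + D₂)) t₃ w₃ ∧ 2 * t₃ ^ 2 + 3 * r + 2 * w₃ = u ^ 2 := by
  obtain ⟨⟨n1, rfl⟩, q1⟩ := h₁
  obtain ⟨⟨n2, rfl⟩, q2⟩ := h₂
  have hs0 : s ≠ 0 := by
    intro h0
    rw [h0] at hs
    exact mul_ne_zero (gv_ne hd t₁ w₁ q1) (gv_ne hd t₂ w₂ q2) (by rw [hs]; ring)
  by_cases hne : t₁ ^ 2 + r = t₂ ^ 2 + r ∧ t₁ * w₁ = -(t₂ * w₂)
  · left
    rw [Affine.Point.add_of_Y_eq hne.1 (by rw [hd.ng]; exact hne.2)]
  · right
    obtain ⟨l, n, x₃, y₃, h₃, hs', p1, p2, p3, v1, v2, v3⟩ := line hd n1 n2 hne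
    rw [hs', neg_neg]
    obtain ⟨t₃, ht₃⟩ : ∃ t₃, t₃ = (w₁ - l * t₁) / t₂ := ⟨_, rfl⟩
    have k1 : w₁ = l * t₁ + t₂ * t₃ := by rw [ht₃]; field_simp; ring
    have kn : n = t₁ * t₂ * t₃ := by linear_combination -p1 + t₁ * k1
    have k2 : w₂ = l * t₂ + t₁ * t₃ := by
      have : t₂ * w₂ = t₂ * (l * t₂ + t₁ * t₃) := by linear_combination p2 + kn
      exact mul_left_cancel₀ ht₂ this
    have k3 : t₃ ^ 2 = x₃ - r := by
      by_cases ht₁ : t₁ = 0
      · have h1 : t₂ ^ 2 * t₃ ^ 2 = t₂ ^ 2 * (x₃ - r) := by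
          rw [ht₁] at v2 q1 k1 kn
          rw [k1] at q1
          rw [kn] at v2
          linear_combination q1 - v2
        exact mul_left_cancel₀ (pow_ne_zero 2 ht₂) h1
      · have h1 : (t₁ ^ 2 * t₂ ^ 2) * t₃ ^ 2 = (t₁ ^ 2 * t₂ ^ 2) * (x₃ - r) := by
          rw [kn] at v3
          linear_combination -v3
        exact mul_left_cancel₀ (mul_ne_zero (pow_ne_zero 2 ht₁) (pow_ne_zero 2 ht₂)) h1
    have hA : 3 * r = l ^ 2 - t₁ ^ 2 - t₂ ^ 2 - t₃ ^ 2 := by linear_combination v1 + k3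
    refine ⟨t₃, l * t₃ + t₁ * t₂, (l + t₁ + t₂ - t₃) * (l + t₁ - t₂ + t₃) * (l - t₁ + t₂ + t₃) / s,
      Gam.of hd h₃ _ _ k3 ?_ ?_, ?_⟩
    · rw [p3, ← k3, kn]; ring
    · rw [← k3]
      have v2' : t₁ ^ 2 * t₂ ^ 2 + t₁ ^ 2 * t₃ ^ 2 + t₂ ^ 2 * t₃ ^ 2 = 3 * r ^ 2 + a - 2 * l * (t₁ * t₂ * t₃) := by
        rw [← kn, k3]; linear_combination v2
      linear_combination v2' - t₃ ^ 2 * hA
    · rw [div_pow, eq_div_iff (pow_ne_zero 2 hs0), ← hs, k1, k2, hA]
      ring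

theorem gam_add (hd : Dat K a b r W) {D₁ D₂ : W.Point} {t₁ w₁ t₂ w₂ : K} (h₁ : Gam W a r D₁ t₁ w₁)
    (h₂ : Gam W a r D₂ t₂ w₂) (s : K)
    (hs : (2 * t₁ ^ 2 + 3 * r + 2 * w₁) * (2 * t₂ ^ 2 + 3 * r + 2 * w₂) = s ^ 2) :
    D₁ + D₂ = 0 ∨ ∃ t₃ w₃ u, Gam W a r (-(D₁ + D₂)) t₃ w₃ ∧ 2 * t₃ ^ 2 + 3 * r + 2 * w₃ = u ^ 2 := by
  by_cases ht₂ : t₂ = 0
  · by_cases ht₁ : t₁ = 0
    · left
      obtain ⟨⟨n1, rfl⟩, q1⟩ := h₁
      obtain ⟨⟨n2, rfl⟩, q2⟩ := h₂
      rw [Affine.Point.add_of_Y_eq (by rw [ht₁, ht₂]) (by rw [hd.ng, ht₁, ht₂]; ring)]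
    · have := gam_add_aux hd h₂ h₁ ht₁ s (by rw [← hs]; ring)
      rwa [add_comm D₂ D₁] at this
  · exact gam_add_aux hd h₁ h₂ ht₂ s hs

/-- Halving. -/
theorem halve (hd : Dat K a b r W) {D : W.Point} {t w : K} (h : Gam W a r D t w) (u : K)
    (hu : 2 * t ^ 2 + 3 * r + 2 * w = u ^ 2) : ∃ R, D = R + R := by
  obtain ⟨⟨h1, rfl⟩, hw⟩ := h
  have hg := gv_ne hd t w hw
  have hu0 : u ≠ 0 := by
    intro h0
    rw [h0] at hu
    exact hg (by rw [hu]; ring)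
  obtain ⟨m, hm⟩ : ∃ m, m = t ^ 2 + w + t * u := ⟨_, rfl⟩
  have hmB : m * (t * u - t ^ 2 - w) = -(3 * r ^ 2 + a) := by
    rw [hm]
    linear_combination (-t ^ 2) * hu - hw
  have hm0 : m ≠ 0 := by
    intro h0
    rw [h0, zero_mul] at hmB
    exact hd.hB (by linear_combination hmB)
  have hR : W.Nonsingular (m + r) (u * m) := by
    refine hd.nons _ _ ((hd.eqn _ _).2 ?_)
    have e : u ^ 2 * m = m ^ 2 + 3 * r * m + (3 * r ^ 2 + a) := by
      linear_combination -hmB - m * hu - m * hm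
    linear_combination m * e
  have hne : ¬(m + r = m + r ∧ u * m = -(u * m)) := by
    rintro ⟨-, h⟩
    have : (2 * u) * m = 0 := by linear_combination h
    exact mul_ne_zero (mul_ne_zero two_ne_zero hu0) hm0 this
  obtain ⟨l, n, x₃, y₃, h₃, hs, p1, p2, p3, v1, v2, v3⟩ := line hd hR hR hne
  have kn : n = (u - l) * m := by linear_combination -p1
  have kX : x₃ - r = (u - l) ^ 2 := by
    have : m ^ 2 * (x₃ - r) = m ^ 2 * (u - l) ^ 2 := by
      rw [kn] at v3; linear_combination v3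
    exact mul_left_cancel₀ (pow_ne_zero 2 hm0) this
  have kl : l = t + u := by
    have : (2 * u) * l = (2 * u) * (t + u) := by
      linear_combination kX - v1 + 2 * hm + hu
    exact mul_left_cancel₀ (mul_ne_zero two_ne_zero hu0) this
  refine ⟨Affine.Point.some (m + r) (u * m) hR, ?_⟩
  rw [hs]
  have hx3 : x₃ = t ^ 2 + r := by rw [kl] at kX; linear_combination kX
  have hy3 : y₃ = -(t * w) := by
    rw [p3, kn, kl, hx3, hm]; ring
  subst hx3
  subst hy3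
  have h1' : W.Nonsingular (t ^ 2 + r) (- -(t * w)) := by rw [neg_neg]; exact h1
  rw [hd.neg _ _ h₃ h1']
  congr 1
  ring

/-- The relation between a point and the value of the second descent map. -/
def Rel (W : WeierstrassCurve.Affine K) (a r : K) (D : W.Point) (g : K) : Prop :=
  (D = 0 ∧ g = 1) ∨ ∃ t w, Gam W a r D t w ∧ g = 2 * t ^ 2 + 3 * r + 2 * w

theorem Rel.neg (hd : Dat K a b r W) {D : W.Point} {g : K} (h : Rel W a r D g) : Rel W a r (-D) g := by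
  rcases h with ⟨h, hg⟩ | ⟨t, w, h, hg⟩
  · left; exact ⟨by rw [h, neg_zero], hg⟩
  · right; exact ⟨-t, w, h.neg hd, by rw [hg]; ring⟩

theorem rel_add (hd : Dat K a b r W) {D₁ D₂ : W.Point} {g₁ g₂ : K} (h₁ : Rel W a r D₁ g₁) (h₂ : Rel W a r D₂ g₂)
    (s : K) (hs : g₁ * g₂ = s ^ 2) : ∃ R, D₁ + D₂ = R + R := by
  rcases h₁ with ⟨rfl, rfl⟩ | ⟨t₁, w₁, h₁, rfl⟩
  · rw [zero_add]
    rcases h₂ with ⟨rfl, rfl⟩ | ⟨t₂, w₂, h₂, rfl⟩
    · exact ⟨0, by simp⟩
    · rw [one_mul] at hs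
      exact halve hd h₂ s hs
  · rcases h₂ with ⟨rfl, rfl⟩ | ⟨t₂, w₂, h₂, rfl⟩
    · rw [add_zero]
      rw [mul_one] at hs
      exact halve hd h₁ s hs
    · rcases gam_add hd h₁ h₂ s hs with h | ⟨t₃, w₃, u, h, hu⟩
      · exact ⟨0, by rw [h]; simp⟩
      · obtain ⟨R, hR⟩ := halve hd h u hu
        refine ⟨-R, ?_⟩
        rw [← neg_add, ← hR, neg_neg]

theorem sq_mem {u : Kˣ} (h : u ∈ Sqr K) : ∃ z : K, z ≠ 0 ∧ (u : K) = z ^ 2 := by
  obtain ⟨v, hv⟩ := h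
  refine ⟨v, v.ne_zero, ?_⟩
  rw [← hv]
  simp

/-- Two elements of the same class. -/
theorem same_class (H : Subgroup Kˣ) (u v : H)
    (h : (QuotientGroup.mk u : H ⧸ (Sqr K).subgroupOf H) = QuotientGroup.mk v) :
    ∃ s : K, ((u : Kˣ) : K) * ((v : Kˣ) : K) = s ^ 2 := by
  have h1 := QuotientGroup.eq.1 h
  rw [Subgroup.mem_subgroupOf] at h1
  obtain ⟨z, hz, he⟩ := sq_mem h1
  refine ⟨z * ((u : Kˣ) : K), ?_⟩
  have e2 : ((u : Kˣ) : K) ≠ 0 := (u : Kˣ).ne_zero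
  have e3 : (((u⁻¹ * v : H) : Kˣ) : K) = ((u : Kˣ) : K)⁻¹ * ((v : Kˣ) : K) := by
    simp
  rw [e3] at he
  rw [mul_pow, ← he]
  field_simp

end

theorem iso : Pool.Agent.H459.AV.S_ISO := by
  intro K _ _ a b r W W' w1 w2 w3 w4 w6 g1 g2 g3 g4 g6 hr H₁ H₂ hH₁ hH₂ hB₁ hB₂ hx₁ hx₂ hi₁ hi₂
  obtain ⟨uB, huB, hB⟩ := hB₁
  obtain ⟨uD, huD, hD⟩ := hB₂
  have hd : Dat K a b r W := ⟨w1, w2, w3, w4, w6, hr, by rw [← hB]; exact uB.ne_zero, by rw [← hD]; exact uD.ne_zero⟩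
  -- the first descent map
  have ha : ∀ P : W.Point, Units.mk0 (alpha W a r P) (alpha_ne hd P) ∈ H₁ := by
    intro P
    rcases P with _ | ⟨x, y, h⟩
    · have : Units.mk0 (alpha W a r Affine.Point.zero) (alpha_ne hd _) = 1 := by
        ext; rfl
      rw [this]; exact H₁.one_mem
    · by_cases hx : x = r
      · have : Units.mk0 (alpha W a r (Affine.Point.some x y h)) (alpha_ne hd _) = uB := by
          ext
          rw [Units.val_mk0, alpha_T x y h hx, hB]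
        rw [this]; exact huB
      · exact hx₁ x y h _ (by rw [Units.val_mk0, alpha_some x y h hx])
  -- the values of the second one
  have hg : ∀ D : W.Point, Kap W a r D → ∃ v : H₂, Rel W a r D ((v : Kˣ) : K) := by
    intro D hD'
    rcases hD' with h | ⟨t, w, h⟩
    · exact ⟨1, Or.inl ⟨h, by simp⟩⟩
    · have hw := h.2
      refine ⟨⟨Units.mk0 _ (gv_ne hd t w hw), hx₂ _ _ (gv_point hd W' g1 g2 g3 g4 g6 t w hw) _ rfl⟩,
        Or.inr ⟨t, w, h, rfl⟩⟩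
  obtain ⟨c, hc⟩ : ∃ c : W.Point → H₁ ⧸ (Sqr K).subgroupOf H₁, ∀ P, c P =
      QuotientGroup.mk (⟨Units.mk0 (alpha W a r P) (alpha_ne hd P), ha P⟩ : H₁) := ⟨_, fun _ => rfl⟩
  have hrep : ∀ v : H₁ ⧸ (Sqr K).subgroupOf H₁, ∃ P₀ : W.Point, ∀ P, c P = v → c P₀ = v := by
    intro v
    by_cases h : ∃ P, c P = v
    · obtain ⟨P, hP⟩ := h
      exact ⟨P, fun _ _ => hP⟩
    · exact ⟨0, fun P hP => (h ⟨P, hP⟩).elim⟩
  choose p hp using hrep
  have hcc : ∀ P Q : W.Point, c P = c Q → ∃ s : K, alpha W a r P * alpha W a r Q = s ^ 2 := by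
    intro P Q h
    rw [hc P, hc Q] at h
    exact same_class H₁ _ _ h
  have hkap : ∀ P : W.Point, Kap W a r (P - p (c P)) := by
    intro P
    obtain ⟨s, hs⟩ := hcc P (p (c P)) (hp (c P) P rfl).symm
    have h2 := alpha_sum hd P (-(p (c P))) s (by rw [alpha_neg hd]; exact hs)
    have h3 := h2.neg hd
    rwa [neg_neg, ← sub_eq_add_neg] at h3
  choose g hg' using fun P : W.Point => hg _ (hkap P)
  obtain ⟨d, hdd⟩ : ∃ d : W.Point → H₂ ⧸ (Sqr K).subgroupOf H₂, ∀ P, d P = QuotientGroup.mk (g P) :=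
    ⟨_, fun _ => rfl⟩
  have hmain : ∀ P P' : W.Point, c P = c P' → d P = d P' → ∃ R, P = P' + (R + R) := by
    intro P P' h1 h2
    rw [hdd, hdd] at h2
    obtain ⟨s, hs⟩ := same_class H₂ _ _ h2
    obtain ⟨R, hR⟩ := rel_add hd (hg' P) ((hg' P').neg hd) s hs
    refine ⟨R, ?_⟩
    rw [← hR, h1]
    abel
  haveI f₁ : Finite (H₁ ⧸ (Sqr K).subgroupOf H₁) := Nat.finite_of_card_ne_zero hi₁
  haveI f₂ : Finite (H₂ ⧸ (Sqr K).subgroupOf H₂) := Nat.finite_of_card_ne_zero hi₂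
  haveI : Fintype ((H₁ ⧸ (Sqr K).subgroupOf H₁) × (H₂ ⧸ (Sqr K).subgroupOf H₂)) := Fintype.ofFinite _
  have hrep2 : ∀ v : (H₁ ⧸ (Sqr K).subgroupOf H₁) × (H₂ ⧸ (Sqr K).subgroupOf H₂), ∃ P₀ : W.Point,
      ∀ P, c P = v.1 → d P = v.2 → c P₀ = v.1 ∧ d P₀ = v.2 := by
    intro v
    by_cases h : ∃ P, c P = v.1 ∧ d P = v.2
    · obtain ⟨P, hP⟩ := h
      exact ⟨P, fun _ _ _ => hP⟩
    · exact ⟨0, fun P hP hP' => (h ⟨P, hP, hP'⟩).elim⟩
  choose q hq using hrep2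
  refine ⟨Finset.univ.image q, ?_, ?_⟩
  · refine Finset.card_image_le.trans ?_
    rw [Finset.card_univ, ← Nat.card_eq_fintype_card, Nat.card_prod]
    rfl
  · intro P
    obtain ⟨e1, e2⟩ := hq (c P, d P) P rfl rfl
    obtain ⟨R, hR⟩ := hmain P (q (c P, d P)) e1.symm e2.symm
    exact ⟨q (c P, d P), Finset.mem_image_of_mem q (Finset.mem_univ _), R, hR⟩

end Pool.Agent.H307.AV2
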